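import Pool.Agent.Y354.DC3.Stm2

/-!
# From the inequality for weights to the Turán function (project DC3, part EXB)
-/

set_option autoImplicit false

open Finset
open scoped Classical

namespace Pool.Agent.Y532.DC3

open Pool.Agent.Y354.DC3 Pool.Agent.H120R2.Clique

/-- the relation of a 3-graph -/
def NG {n : ℕ} (G : Finset (Finset (Fin n))) (x y z : Fin n) : Prop :=
  x = y ∨ y = z ∨ x = z ∨ ({x, y, z} : Finset (Fin n)) ∉ G

lemma ng_sy {n : ℕ} (G : Finset (Finset (Fin n))) : Sy (NG G) := by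
  constructor
  · intro a b c h
    unfold NG at h ⊢
    rw [Finset.insert_comm b a {c}]
    tauto
  · intro a b c h
    unfold NG at h ⊢
    rw [Finset.pair_comm c b]
    tauto

lemma ng_ind {n m : ℕ} (hm : 3 ≤ m) (G : Finset (Finset (Fin n))) (hG : ¬ HasClique G 3 m)
    (x : Fin m → Fin n) : ¬ Ind (NG G) x := by
  intro hx
  have hinj : Function.Injective x := by
    intro i j hij
    by_contra hne
    obtain ⟨l, hl⟩ : ∃ l : Fin m, l ∉ ({i, j} : Finset (Fin m)) := by
      by_contra hcon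
      push Not at hcon
      have h1 : (univ : Finset (Fin m)) ⊆ {i, j} := fun l _ => hcon l
      have h2 := Finset.card_le_card h1
      rw [Finset.card_univ, Fintype.card_fin] at h2
      have h3 := Finset.card_le_two (a := i) (b := j)
      omega
    rw [mem_insert, mem_singleton, not_or] at hl
    exact hx i j l hne (Ne.symm hl.1) (Ne.symm hl.2) (Or.inl hij)
  apply hG
  refine ⟨univ.image x, ?_, ?_⟩
  · rw [Finset.card_image_of_injective _ hinj, Finset.card_univ, Fintype.card_fin]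
  · intro B hB
    rw [mem_powersetCard] at hB
    obtain ⟨a, b, c, hab, hac, hbc, rfl⟩ := Finset.card_eq_three.1 hB.2
    have hi : ∀ v ∈ ({a, b, c} : Finset (Fin n)), ∃ i, x i = v := by
      intro v hv
      have := hB.1 hv
      rw [mem_image] at this
      obtain ⟨i, -, hi⟩ := this
      exact ⟨i, hi⟩
    obtain ⟨i, rfl⟩ := hi a (by simp)
    obtain ⟨j, rfl⟩ := hi b (by simp)
    obtain ⟨l, rfl⟩ := hi c (by simp)
    have h1 := hx i j l (fun h => hab (by rw [h])) (fun h => hac (by rw [h]))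
      (fun h => hbc (by rw [h]))
    unfold NG at h1
    push Not at h1
    exact h1.2.2.2

lemma six_le {n : ℕ} (G : Finset (Finset (Fin n))) (hG : ∀ A ∈ G, A.card = 3) :
    6 * G.card ≤ (univ.filter (fun t : Fin n × Fin n × Fin n => ¬ NG G t.2.1 t.2.2 t.1)).card := by
  set T := univ.filter (fun t : Fin n × Fin n × Fin n => ¬ NG G t.2.1 t.2.2 t.1) with hT
  have hmaps : ∀ t ∈ T, ({t.2.1, t.2.2, t.1} : Finset (Fin n)) ∈ G := by
    intro t ht
    rw [hT, mem_filter] at ht
    have h1 := ht.2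
    unfold NG at h1
    push Not at h1
    exact h1.2.2.2
  rw [Finset.card_eq_sum_card_fiberwise hmaps, mul_comm, ← smul_eq_mul, ← Finset.sum_const]
  refine Finset.sum_le_sum fun A hA => ?_
  obtain ⟨a, b, c, hab, hac, hbc, rfl⟩ := Finset.card_eq_three.1 (hG A hA)
  have hsub : ({(a, b, c), (a, c, b), (b, a, c), (b, c, a), (c, a, b), (c, b, a)} :
      Finset (Fin n × Fin n × Fin n)) ⊆
      T.filter (fun t => ({t.2.1, t.2.2, t.1} : Finset (Fin n)) = {a, b, c}) := by
    have e : ∀ u v w : Fin n, u ≠ v → u ≠ w → v ≠ w →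
        ({v, w, u} : Finset (Fin n)) = {a, b, c} → (u, v, w) ∈
        T.filter (fun t => ({t.2.1, t.2.2, t.1} : Finset (Fin n)) = {a, b, c}) := by
      intro u v w h1 h2 h3 h4
      rw [mem_filter, hT, mem_filter]
      refine ⟨⟨mem_univ _, ?_⟩, h4⟩
      unfold NG
      push Not
      refine ⟨h3, h2.symm, h1.symm, ?_⟩
      change ({v, w, u} : Finset (Fin n)) ∈ G
      rw [h4]
      exact hA
    intro t ht
    simp only [mem_insert, mem_singleton] at ht
    rcases ht with rfl | rfl | rfl | rfl | rfl | rfl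
    · refine e _ _ _ hab hac hbc ?_
      ext x; simp; tauto
    · refine e _ _ _ hac hab hbc.symm ?_
      ext x; simp; tauto
    · refine e _ _ _ hab.symm hbc hac ?_
      ext x; simp; tauto
    · refine e _ _ _ hbc hab.symm hac.symm ?_
      ext x; simp; tauto
    · refine e _ _ _ hac.symm hbc.symm hab ?_
      ext x; simp
    · refine e _ _ _ hbc.symm hac.symm hab.symm ?_
      ext x; simp; tauto
  have hcard : ({(a, b, c), (a, c, b), (b, a, c), (b, c, a), (c, a, b), (c, b, a)} :
      Finset (Fin n × Fin n × Fin n)).card = 6 := by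
    have h1 := hab.symm
    have h2 := hac.symm
    have h3 := hbc.symm
    rw [card_insert_of_notMem, card_insert_of_notMem, card_insert_of_notMem,
      card_insert_of_notMem, card_insert_of_notMem, card_singleton] <;> simp_all
  rw [← hcard]
  exact Finset.card_le_card hsub

lemma sum_I {α : Type} [Fintype α] (p : α → Prop) :
    ∑ t : α, I (p t) = (Fintype.card α : ℝ) - ((univ.filter (fun t => ¬ p t)).card : ℝ) := by
  have h1 : ∑ t : α, I (p t) = ((univ.filter p).card : ℝ) := by
    unfold I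
    rw [Finset.sum_boole]
  have h2 := Finset.card_filter_add_card_filter_not (s := (univ : Finset α)) p
  rw [Finset.card_univ] at h2
  rw [h1, ← h2]
  push_cast
  ring

lemma tt_unif {n : ℕ} (N : Fin n → Fin n → Fin n → Prop) :
    tt (fun _ => (1 : ℝ) / n) N = (1 / (n : ℝ)) ^ 3 * ((n : ℝ) ^ 3 -
      ((univ.filter (fun t : Fin n × Fin n × Fin n => ¬ N t.2.1 t.2.2 t.1)).card : ℝ)) := by
  have h1 := sum_I (fun t : Fin n × Fin n × Fin n => N t.2.1 t.2.2 t.1)
  have h2 : (Fintype.card (Fin n × Fin n × Fin n) : ℝ) = (n : ℝ) ^ 3 := by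
    rw [Fintype.card_prod, Fintype.card_prod, Fintype.card_fin]
    push_cast
    ring
  rw [h2] at h1
  rw [← h1, Fintype.sum_prod_type, Finset.mul_sum]
  unfold tt dg
  refine Finset.sum_congr rfl fun w _ => ?_
  rw [Fintype.sum_prod_type, Finset.mul_sum, Finset.mul_sum]
  refine Finset.sum_congr rfl fun v _ => ?_
  rw [Finset.mul_sum, Finset.mul_sum]
  refine Finset.sum_congr rfl fun u _ => ?_
  ring

lemma bound_one (h : S_MAIN) {n m : ℕ} (hn : 0 < n) (hm : 3 ≤ m) (G : Finset (Finset (Fin n)))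
    (h3 : ∀ A ∈ G, A.card = 3) (hG : ¬ HasClique G 3 m) :
    (G.card : ℝ) ≤ (1 - 49 / 20 / ((m : ℝ) - 1) ^ 2) * (n : ℝ) ^ 3 / 6 := by
  have hn' : (0 : ℝ) < n := by exact_mod_cast hn
  have hpr : Pr (fun _ : Fin n => (1 : ℝ) / n) := by
    refine ⟨fun _ => by positivity, ?_⟩
    rw [Finset.sum_const, Finset.card_univ, Fintype.card_fin, nsmul_eq_mul]
    field_simp
  have h1 := h (Fin n) (NG G) (ng_sy G) m hm (ng_ind hm G hG) _ hpr
  rw [tt_unif] at h1
  have h2 : (6 * (G.card : ℝ)) ≤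
      ((univ.filter (fun t : Fin n × Fin n × Fin n => ¬ NG G t.2.1 t.2.2 t.1)).card : ℝ) := by
    exact_mod_cast six_le G h3
  have hm' : (2 : ℝ) ≤ (m : ℝ) - 1 := by
    have : (3 : ℝ) ≤ m := by exact_mod_cast hm
    linarith
  set M : ℝ := ((m : ℝ) - 1) ^ 2 with hM
  have hM0 : 0 < M := by positivity
  set T : ℝ := ((univ.filter (fun t : Fin n × Fin n × Fin n => ¬ NG G t.2.1 t.2.2 t.1)).card : ℝ)
    with hT
  have hn3 : (0 : ℝ) < (n : ℝ) ^ 3 := by positivity
  have h4 : 49 / 20 / M ≤ 1 - 6 * (G.card : ℝ) / (n : ℝ) ^ 3 := by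
    rw [div_le_iff₀ hM0]
    have h5 : (1 / (n : ℝ)) ^ 3 * ((n : ℝ) ^ 3 - T) = 1 - T / (n : ℝ) ^ 3 := by
      field_simp
    rw [h5] at h1
    have h6 : 6 * (G.card : ℝ) / (n : ℝ) ^ 3 ≤ T / (n : ℝ) ^ 3 := div_le_div_of_nonneg_right h2 hn3.le
    nlinarith
  have h7 : 6 * (G.card : ℝ) / (n : ℝ) ^ 3 ≤ 1 - 49 / 20 / M := by linarith
  rw [div_le_iff₀ hn3] at h7
  linarith

theorem s_exb : S_MAIN → S_EXB := by
  intro h n m hm
  have hm' : (2 : ℝ) ≤ (m : ℝ) - 1 := by
    have : (3 : ℝ) ≤ m := by exact_mod_cast hm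
    linarith
  have hpos : (0 : ℝ) ≤ (1 - 49 / 20 / ((m : ℝ) - 1) ^ 2) * (n : ℝ) ^ 3 / 6 := by
    have h1 : 49 / 20 / ((m : ℝ) - 1) ^ 2 ≤ 1 := by
      rw [div_le_one (by positivity)]
      nlinarith
    have h2 : 0 ≤ 1 - 49 / 20 / ((m : ℝ) - 1) ^ 2 := by linarith
    positivity
  by_cases h0 : ex n 3 m = 0
  · rw [h0, Nat.cast_zero]
    exact hpos
  have hn : 0 < n := by
    rcases Nat.eq_zero_or_pos n with rfl | hn
    · exfalso
      apply h0
      unfold ex
      apply Nat.le_zero.1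
      refine Finset.sup_le fun G hG => ?_
      rw [mem_filter, mem_powerset] at hG
      have := Finset.card_le_card hG.1
      simpa using this
    · exact hn
  have hnon : ((((univ : Finset (Fin n)).powersetCard 3).powerset).filter
      (fun G => ¬ HasClique G 3 m)).Nonempty := by
    by_contra hcon
    rw [Finset.not_nonempty_iff_eq_empty] at hcon
    apply h0
    unfold ex
    rw [hcon]
    simp
  obtain ⟨G, hG, he⟩ := Finset.exists_mem_eq_sup _ hnon Finset.card
  rw [mem_filter, mem_powerset] at hG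
  have he' : ex n 3 m = G.card := he
  rw [he']
  exact bound_one h hn hm G (fun A hA => (mem_powersetCard.mp (hG.1 hA)).2) hG.2

end Pool.Agent.Y532.DC3
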